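import Pool.Agent.R972.OP.StmE

/-!
# Project OP, piece OP-GEO: order polytopes are compact and convex, with interior points in the
case of a partial order
-/

set_option autoImplicit false

namespace Pool.Agent.R609.OP

open MeasureTheory Set Filter Topology
open Pool.Agent.W695.KH (Eu EV VV)
open Pool.Agent.R972.OP

variable {n : ℕ} (R : Fin n → Fin n → Prop)

theorem cont (i : Fin n) : Continuous (fun x : Eu (Fin n) => x i) :=
  (EuclideanSpace.proj (𝕜 := ℝ) i).continuous

theorem closed : IsClosed (OE R) := by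
  have e : OE R = (⋂ i, ({x : Eu (Fin n) | 0 ≤ x i} ∩ {x | x i ≤ 1})) ∩
      ⋂ i, ⋂ j, ⋂ (_ : R i j), {x : Eu (Fin n) | x i ≤ x j} := by
    ext x
    simp only [OE, mem_ofPred_eq, mem_inter_iff, mem_iInter]
  rw [e]
  refine IsClosed.inter (isClosed_iInter fun i => IsClosed.inter
    (isClosed_le continuous_const (cont i)) (isClosed_le (cont i) continuous_const)) ?_
  exact isClosed_iInter fun i => isClosed_iInter fun j => isClosed_iInter fun _ =>
    isClosed_le (cont i) (cont j)

theorem compact : IsCompact (OE R) := by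
  refine Metric.isCompact_of_isClosed_isBounded (closed R) ?_
  refine (Metric.isBounded_closedBall (x := (0 : Eu (Fin n))) (r := Real.sqrt n)).subset ?_
  intro x hx
  rw [mem_closedBall_zero_iff, EuclideanSpace.norm_eq]
  refine Real.sqrt_le_sqrt ?_
  calc ∑ i, ‖x i‖ ^ 2 ≤ ∑ _i : Fin n, (1 : ℝ) := by
        refine Finset.sum_le_sum fun i _ => ?_
        have h := hx.1 i
        rw [Real.norm_eq_abs, sq_abs]
        nlinarith [h.1, h.2]
    _ = n := by simp

theorem convex : Convex ℝ (OE R) := by
  intro x hx y hy a b ha hb hab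
  have e : ∀ i, (a • x + b • y) i = a * x i + b * y i := by
    intro i
    simp
  refine ⟨fun i => ?_, fun i j hij => ?_⟩
  · have h1 := hx.1 i
    have h2 := hy.1 i
    rw [e]
    constructor
    · exact add_nonneg (mul_nonneg ha h1.1) (mul_nonneg hb h2.1)
    · nlinarith [mul_le_mul_of_nonneg_left h1.2 ha, mul_le_mul_of_nonneg_left h2.2 hb]
  · rw [e, e]
    exact add_le_add (mul_le_mul_of_nonneg_left (hx.2 i j hij) ha)
      (mul_le_mul_of_nonneg_left (hy.2 i j hij) hb)

theorem interior_ne (ht : ∀ a b c, R a b → R b c → R a c) (ha : ∀ a b, R a b → R b a → a = b) :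
    (interior (OE R)).Nonempty := by
  classical
  let S : Fin n → Finset (Fin n) := fun i => Finset.univ.filter fun j => R j i ∧ j ≠ i
  let x : Eu (Fin n) := WithLp.toLp 2 fun i => ((S i).card + 1 : ℝ) / (n + 1)
  have hx : ∀ i, x i = ((S i).card + 1 : ℝ) / (n + 1) := fun i => rfl
  have hn : (0 : ℝ) < (n : ℝ) + 1 := by positivity
  have hS : ∀ i, (S i).card < n := by
    intro i
    have h1 : S i ⊂ Finset.univ := by
      rw [Finset.ssubset_univ_iff]
      intro h
      have : i ∈ S i := by rw [h]; exact Finset.mem_univ i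
      simp [S] at this
    have := Finset.card_lt_card h1
    simpa using this
  have hSlt : ∀ i j, R i j → i ≠ j → (S i).card < (S j).card := by
    intro i j hij hne
    refine Finset.card_lt_card ?_
    rw [Finset.ssubset_iff_subset_ne]
    refine ⟨fun k hk => ?_, fun h => ?_⟩
    · simp only [S, Finset.mem_filter, Finset.mem_univ, true_and] at hk ⊢
      refine ⟨ht k i j hk.1 hij, ?_⟩
      rintro rfl
      exact hne (ha _ _ hij hk.1)
    · have h1 : i ∈ S j := by
        simp only [S, Finset.mem_filter, Finset.mem_univ, true_and]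
        exact ⟨hij, hne⟩
      rw [← h] at h1
      simp [S] at h1
  let U : Set (Eu (Fin n)) := (⋂ i, ({x : Eu (Fin n) | 0 < x i} ∩ {x | x i < 1})) ∩
      ⋂ i, ⋂ j, ⋂ (_ : R i j ∧ i ≠ j), {x : Eu (Fin n) | x i < x j}
  have hU : IsOpen U := by
    refine IsOpen.inter (isOpen_iInter_of_finite fun i => IsOpen.inter
      (isOpen_lt continuous_const (cont i)) (isOpen_lt (cont i) continuous_const)) ?_
    exact isOpen_iInter_of_finite fun i => isOpen_iInter_of_finite fun j =>
      isOpen_iInter_of_finite fun _ => isOpen_lt (cont i) (cont j)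
  have hUO : U ⊆ OE R := by
    intro y hy
    simp only [U, mem_inter_iff, mem_iInter, mem_ofPred_eq] at hy
    refine ⟨fun i => ⟨(hy.1 i).1.le, (hy.1 i).2.le⟩, fun i j hij => ?_⟩
    by_cases h : i = j
    · rw [h]
    · exact (hy.2 i j ⟨hij, h⟩).le
  refine ⟨x, interior_maximal hUO hU ?_⟩
  simp only [U, mem_inter_iff, mem_iInter, mem_ofPred_eq]
  refine ⟨fun i => ⟨?_, ?_⟩, fun i j hij => ?_⟩
  · rw [hx]
    positivity
  · rw [hx, div_lt_one hn]
    have : ((S i).card : ℝ) < n := by exact_mod_cast hS i
    linarith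
  · rw [hx, hx]
    have : ((S i).card : ℝ) < (S j).card := by exact_mod_cast hSlt i j hij.1 hij.2
    exact div_lt_div_of_pos_right (by linarith) hn

theorem geo : S_GEO := fun _ R => ⟨compact R, convex R, interior_ne R⟩

end Pool.Agent.R609.OP
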